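import Mathlib

/-!
# Ranks of matrices whose entries are linearly independent up to the action of an algebra

`D` is a division ring acting on `ℚ ^ n` and on a space `V`, with an equivariant map
`Λ : V → K ^ n`; the coordinates of the images of `D`-independent vectors are linearly independent
over the algebraically closed field `k ⊂ K`.
-/

set_option autoImplicit false

namespace Pool.Agent.E8helper40.PC

open Module Matrix

section Linear

variable {k K D V : Type*} [Field k] [IsAlgClosed k] [CharZero k] [Field K] [CharZero K]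
  [Algebra k K] [DivisionRing D] [CharZero D] [AddCommGroup V] [Module D V] [Module ℚ V]
  {n : ℕ}

/-- A matrix with rational entries over a field of characteristic zero. -/
def ovf (k : Type*) [Field k] [CharZero k] {n : ℕ} (B : Matrix (Fin n) (Fin n) ℚ) :
    Matrix (Fin n) (Fin n) k :=
  B.map (algebraMap ℚ k)

omit [IsAlgClosed k] in
lemma ovf_mul (B C : Matrix (Fin n) (Fin n) ℚ) : ovf k (B * C) = ovf k B * ovf k C :=
  Matrix.map_mul

omit [IsAlgClosed k] in
lemma ovf_add (B C : Matrix (Fin n) (Fin n) ℚ) : ovf k (B + C) = ovf k B + ovf k C := by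
  ext i j
  simp [ovf]

omit [IsAlgClosed k] in
lemma ovf_zero : ovf k (0 : Matrix (Fin n) (Fin n) ℚ) = 0 := by
  ext i j
  simp [ovf]

omit [IsAlgClosed k] in
lemma ovf_sum {ι : Type*} (s : Finset ι) (B : ι → Matrix (Fin n) (Fin n) ℚ) :
    ovf k (∑ i ∈ s, B i) = ∑ i ∈ s, ovf k (B i) := by
  ext a b
  simp [ovf, Matrix.sum_apply]

/-- The row vectors that are simultaneous eigenvectors of the elements of `F`. -/
def Eigen (k : Type*) [Field k] [CharZero k] (M : D →+* Matrix (Fin n) (Fin n) ℚ)
    (F : Subfield D) (μ : Fin n → k) : Prop :=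
  ∃ σ : F → k, ∀ x : F, μ ᵥ* ovf k (M x) = σ x • μ

lemma isIntegral_of_matrix (hn : 0 < n) (M : D →+* Matrix (Fin n) (Fin n) ℚ) (x : D) :
    IsIntegral ℚ x := by
  have : Nonempty (Fin n) := ⟨⟨0, hn⟩⟩
  have hinj : Function.Injective M := M.injective
  let Mq : D →ₐ[ℚ] Matrix (Fin n) (Fin n) ℚ := M.toRatAlgHom
  have h : IsIntegral ℚ (Mq x) := Algebra.IsIntegral.isIntegral _
  exact (isIntegral_algHom_iff Mq hinj).1 h

omit [IsAlgClosed k] [CharZero k] in
lemma aeval_transpose (B : Matrix (Fin n) (Fin n) k) (p : Polynomial k) :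
    Polynomial.aeval Bᵀ p = (Polynomial.aeval B p)ᵀ := by
  rw [Polynomial.aeval_eq_sum_range, Polynomial.aeval_eq_sum_range, Matrix.transpose_sum]
  refine Finset.sum_congr rfl fun i _ => ?_
  rw [Matrix.transpose_smul, Matrix.transpose_pow]

omit [IsAlgClosed k] in
lemma semisimple (hn : 0 < n) (M : D →+* Matrix (Fin n) (Fin n) ℚ) (x : D) :
    Module.End.IsSemisimple (Matrix.toLin' (ovf k (M x))ᵀ) := by
  have hx := isIntegral_of_matrix hn M x
  have hirr := minpoly.irreducible hx
  have hsq : Squarefree ((minpoly ℚ x).map (algebraMap ℚ k)) :=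
    (hirr.separable.map).squarefree
  refine Module.End.isSemisimple_of_squarefree_aeval_eq_zero hsq ?_
  let Mq : D →ₐ[ℚ] Matrix (Fin n) (Fin n) ℚ := M.toRatAlgHom
  have h1 : Polynomial.aeval (M x) (minpoly ℚ x) = 0 := by
    have := Polynomial.aeval_algHom_apply Mq x (minpoly ℚ x)
    rw [minpoly.aeval, map_zero] at this
    exact this
  have h2 : Polynomial.aeval (ovf k (M x)) ((minpoly ℚ x).map (algebraMap ℚ k)) = 0 := by
    let φ : Matrix (Fin n) (Fin n) ℚ →ₐ[ℚ] Matrix (Fin n) (Fin n) k :=
      (Algebra.ofId ℚ k).mapMatrix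
    have := Polynomial.aeval_algHom_apply φ (M x) (minpoly ℚ x)
    rw [h1, map_zero] at this
    rw [Polynomial.aeval_map_algebraMap]
    exact this
  have h3 := aeval_transpose (ovf k (M x)) ((minpoly ℚ x).map (algebraMap ℚ k))
  rw [h2, Matrix.transpose_zero] at h3
  have h4 := Polynomial.aeval_algHom_apply
    (Matrix.toLinAlgEquiv' (R := k) (n := Fin n)).toAlgHom (ovf k (M x))ᵀ
    ((minpoly ℚ x).map (algebraMap ℚ k))
  rw [h3, map_zero] at h4
  exact h4

lemma span_eigen (hn : 0 < n) (M : D →+* Matrix (Fin n) (Fin n) ℚ) (F : Subfield D)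
    (hF : ∀ x ∈ F, ∀ y ∈ F, x * y = y * x) :
    Submodule.span k {μ : Fin n → k | Eigen k M F μ} = ⊤ := by
  let f : F → Module.End k (Fin n → k) := fun x => Matrix.toLin' (ovf k (M x))ᵀ
  have hcomm : Pairwise fun i j => Commute (f i) (f j) := by
    intro x y _
    have h : ovf k (M x) * ovf k (M y) = ovf k (M y) * ovf k (M x) := by
      rw [← ovf_mul, ← ovf_mul, ← map_mul, ← map_mul, hF x x.2 y y.2]
    have h2 : (ovf k (M x))ᵀ * (ovf k (M y))ᵀ = (ovf k (M y))ᵀ * (ovf k (M x))ᵀ := by
      rw [← Matrix.transpose_mul, ← Matrix.transpose_mul, h]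
    change f x * f y = f y * f x
    change Matrix.toLin' _ ∘ₗ Matrix.toLin' _ = Matrix.toLin' _ ∘ₗ Matrix.toLin' _
    rw [← Matrix.toLin'_mul, ← Matrix.toLin'_mul, h2]
  have hss : ∀ x, Module.End.IsSemisimple (f x) := fun x => semisimple hn M x
  have htop : ∀ x, ⨆ c, (f x).maxGenEigenspace c = ⊤ := fun x =>
    Module.End.iSup_maxGenEigenspace_eq_top _
  have h := Module.End.iSup_iInf_maxGenEigenspace_eq_top_of_iSup_maxGenEigenspace_eq_top_of_commute
    f hcomm htop
  rw [eq_top_iff, ← h]
  refine iSup_le fun χ => ?_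
  intro μ hμ
  refine Submodule.subset_span ⟨χ, fun x => ?_⟩
  rw [Submodule.mem_iInf] at hμ
  have h1 := hμ x
  rw [((hss x).isFinitelySemisimple).maxGenEigenspace_eq_eigenspace,
    Module.End.mem_eigenspace_iff] at h1
  simpa [f, Matrix.mulVec_transpose] using h1

omit [IsAlgClosed k] in
/-- Linear independence over `ℚ` of rational vectors is preserved by extension of scalars. -/
lemma eq_zero_of_combination {ι κ : Type*} [Fintype ι] [Fintype κ] (w : ι → κ → ℚ)
    (hw : LinearIndependent ℚ w) (z : ι → k) (hz : ∀ a, ∑ i, z i * (w i a : k) = 0) : z = 0 := by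
  classical
  have hinj : LinearMap.ker (Fintype.linearCombination ℚ w) = ⊥ := by
    rw [LinearMap.ker_eq_bot']
    intro q hq
    rw [Fintype.linearCombination_apply] at hq
    exact funext fun i => Fintype.linearIndependent_iff.1 hw q hq i
  obtain ⟨g, hg⟩ := LinearMap.exists_leftInverse_of_injective _ hinj
  funext i₀
  have hg' : ∀ i, g (w i) = Pi.single i 1 := by
    intro i
    have := LinearMap.congr_fun hg (Pi.single i 1)
    simpa [Fintype.linearCombination_apply_single] using this
  have hexp : ∀ v : κ → ℚ, g v i₀ = ∑ a, v a * g (Pi.single a 1) i₀ := by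
    intro v
    conv_lhs => rw [pi_eq_sum_univ' v]
    rw [map_sum, Finset.sum_apply]
    refine Finset.sum_congr rfl fun a _ => ?_
    rw [map_smul, Pi.smul_apply, smul_eq_mul]
  have key : z i₀ = ∑ a, (∑ i, z i * (w i a : k)) * (g (Pi.single a 1) i₀ : ℚ) := by
    simp only [Finset.sum_mul]
    rw [Finset.sum_comm]
    have : ∀ i, ∑ a, z i * (w i a : k) * ((g (Pi.single a 1) i₀ : ℚ) : k)
        = z i * ((g (w i) i₀ : ℚ) : k) := by
      intro i
      rw [hexp (w i)]
      push_cast
      rw [Finset.mul_sum]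
      exact Finset.sum_congr rfl fun a _ => by ring
    simp only [this, hg']
    rw [Finset.sum_eq_single i₀]
    · simp
    · intro i _ hi
      simp [hi.symm]
    · intro h
      exact absurd (Finset.mem_univ _) h
  rw [key]
  simp [hz]

omit [IsAlgClosed k] in
lemma dot_ovf (B : Matrix (Fin n) (Fin n) ℚ) (μ : Fin n → k) (v : Fin n → K) :
    (fun b => algebraMap k K (μ b)) ⬝ᵥ (ovf K B *ᵥ v)
      = (fun b => algebraMap k K ((μ ᵥ* ovf k B) b)) ⬝ᵥ v := by
  rw [Matrix.dotProduct_mulVec]
  congr 1
  funext b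
  simp [Matrix.vecMul, dotProduct, ovf]

lemma finite_over (hn : 0 < n) (M : D →+* Matrix (Fin n) (Fin n) ℚ) (F : Subfield D) :
    Module.Finite F D := by
  have : Nonempty (Fin n) := ⟨⟨0, hn⟩⟩
  have hinj : Function.Injective M.toRatAlgHom := M.injective
  have : Module.Finite ℚ D := Module.Finite.of_injective M.toRatAlgHom.toLinearMap hinj
  exact Module.Finite.of_restrictScalars_finite ℚ F D

/-- The main inequality: `m` rationally independent vectors of `V` have images in `K ^ n` which span
a space of dimension at least `m / dim_F (D l)`. -/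
theorem card_le (hn : 0 < n) (M : D →+* Matrix (Fin n) (Fin n) ℚ) (F : Subfield D)
    (hF : ∀ x ∈ F, ∀ y ∈ F, x * y = y * x) (Λ : V →+ (Fin n → K))
    (hΛ : ∀ (δ : D) (v : V), Λ (δ • v) = (ovf K (M δ)) *ᵥ Λ v)
    (hind : ∀ (s : ℕ) (v : Fin s → V), LinearIndependent D v →
      LinearIndependent k fun ij : Fin n × Fin s => Λ (v ij.2) ij.1)
    {m : ℕ} (l : Fin m → V) (hl : LinearIndependent ℚ l) :
    m ≤ finrank K (Submodule.span K (Set.range fun i => Λ (l i))) *
      finrank F (Submodule.span D (Set.range l)) := by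
  classical
  have hnn : Nonempty (Fin n) := ⟨⟨0, hn⟩⟩
  have hMinj : Function.Injective M := M.injective
  have hfin := finite_over hn M F
  set W := Submodule.span D (Set.range l) with hW
  have hWfin : FiniteDimensional D W := FiniteDimensional.span_of_finite D (Set.finite_range l)
  let P := Module.finBasis D W
  let y := Module.finBasis F D
  set s := finrank D W with hs
  set d := finrank F D with hd
  let lW : Fin m → W := fun i => ⟨l i, Submodule.subset_span (Set.mem_range_self i)⟩
  let c : Fin m → Fin s → D := fun i j => P.repr (lW i) j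
  have hlc : ∀ i, l i = ∑ j, c i j • (P j : V) := by
    intro i
    have h := congrArg (fun w : W => (w : V)) (P.sum_repr (lW i))
    simp only [Submodule.coe_sum, Submodule.coe_smul] at h
    exact h.symm
  let x : Fin m → Fin s → Fin d → F := fun i j a => y.repr (c i j) a
  have hcx : ∀ i j, c i j = ∑ a, (x i j a : D) * y a := by
    intro i j
    exact (y.sum_repr (c i j)).symm
  -- the row functionals
  let X : {μ : Fin n → k // Eigen k M F μ} → Fin m → K := fun μ i =>
    (fun b => algebraMap k K (μ.1 b)) ⬝ᵥ Λ (l i)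
  let T : (Fin n → k) → (Fin m → k) → Fin s → Fin n → k := fun μ z j =>
    ∑ i, z i • (μ ᵥ* ovf k (M (c i j)))
  have hPD : LinearIndependent D fun j => (P j : V) :=
    P.linearIndependent.map' W.subtype (Submodule.ker_subtype W)
  have hE1 : ∀ (μ : Fin n → k) (z : Fin m → k),
      ∑ i, algebraMap k K (z i) * ((fun b => algebraMap k K (μ b)) ⬝ᵥ Λ (l i))
        = ∑ ij : Fin n × Fin s, T μ z ij.2 ij.1 • Λ (P ij.2 : V) ij.1 := by
    intro μ z
    rw [Fintype.sum_prod_type_right]
    have h1 : ∀ i, (fun b => algebraMap k K (μ b)) ⬝ᵥ Λ (l i)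
        = ∑ j, ∑ a, algebraMap k K ((μ ᵥ* ovf k (M (c i j))) a) * Λ (P j : V) a := by
      intro i
      rw [hlc i, map_sum, dotProduct_sum]
      refine Finset.sum_congr rfl fun j _ => ?_
      rw [hΛ, dot_ovf]
      rfl
    simp only [h1, Finset.mul_sum]
    rw [Finset.sum_comm]
    refine Finset.sum_congr rfl fun j _ => ?_
    rw [Finset.sum_comm]
    refine Finset.sum_congr rfl fun a _ => ?_
    have h2 : T μ z j a = ∑ i, z i * (μ ᵥ* ovf k (M (c i j))) a := by
      simp [T, Finset.sum_apply]
    change _ = T μ z j a • Λ (P j : V) a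
    rw [Algebra.smul_def, h2, map_sum, Finset.sum_mul]
    refine Finset.sum_congr rfl fun i _ => ?_
    rw [map_mul]
    ring
  obtain ⟨κ, e, he, hspan, hli⟩ := exists_linearIndependent' K X
  have : Finite κ := hli.finite
  have : Fintype κ := Fintype.ofFinite κ
  have hcard : Fintype.card κ ≤
      finrank K (Submodule.span K (Set.range fun i => Λ (l i))) := by
    rw [← finrank_span_eq_card hli, hspan]
    let N : Matrix (Fin n) (Fin m) K := fun b i => Λ (l i) b
    have h1 : finrank K (Submodule.span K (Set.range fun i => Λ (l i))) = N.rank := by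
      rw [Matrix.rank_eq_finrank_span_cols]
      rfl
    rw [h1, Matrix.rank_eq_finrank_span_row]
    refine Submodule.finrank_mono ?_
    rw [Submodule.span_le]
    rintro _ ⟨μ, rfl⟩
    have h2 : X μ = ∑ b, algebraMap k K (μ.1 b) • N b := by
      funext i
      simp [X, N, dotProduct, Finset.sum_apply, Algebra.smul_def]
    rw [h2]
    exact Submodule.sum_mem _ fun b _ => Submodule.smul_mem _ _
      (Submodule.subset_span (Set.mem_range_self b))
  have htower : finrank F W = d * s := (Module.finrank_mul_finrank F D W).symm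
  by_contra hlt
  rw [not_le] at hlt
  choose σ hσ using fun q : κ => (e q).2
  let R : (Fin m → k) →ₗ[k] (κ × Fin s × Fin d → k) :=
    LinearMap.pi fun t => ∑ i, σ t.1 (x i t.2.1 t.2.2) • LinearMap.proj i
  have hker : LinearMap.ker R ≠ ⊥ := by
    apply LinearMap.ker_ne_bot_of_finrank_lt
    rw [Module.finrank_fintype_fun_eq_card, Module.finrank_fintype_fun_eq_card]
    simp only [Fintype.card_prod, Fintype.card_fin]
    refine lt_of_le_of_lt ?_ hlt
    rw [htower, mul_comm d s]
    exact Nat.mul_le_mul_right _ hcard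
  obtain ⟨z, hz, hz0⟩ := (Submodule.ne_bot_iff _).1 hker
  rw [LinearMap.mem_ker] at hz
  have hR : ∀ q j a, ∑ i, z i * σ q (x i j a) = 0 := by
    intro q j a
    have h := congrFun hz (q, j, a)
    simp only [R, LinearMap.pi_apply, LinearMap.sum_apply, LinearMap.smul_apply,
      LinearMap.proj_apply, smul_eq_mul, Pi.zero_apply] at h
    rw [← h]
    exact Finset.sum_congr rfl fun i _ => mul_comm _ _
  have hT1 : ∀ q j, T (e q).1 z j = 0 := by
    intro q j
    have h1 : ∀ i, (e q).1 ᵥ* ovf k (M (c i j))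
        = ∑ a, σ q (x i j a) • ((e q).1 ᵥ* ovf k (M (y a))) := by
      intro i
      rw [hcx i j, map_sum, ovf_sum]
      rw [Matrix.vecMul_sum]
      refine Finset.sum_congr rfl fun a _ => ?_
      rw [map_mul, ovf_mul, ← Matrix.vecMul_vecMul, hσ q, Matrix.smul_vecMul]
    simp only [T, h1, Finset.smul_sum, smul_smul]
    rw [Finset.sum_comm]
    refine Finset.sum_eq_zero fun a _ => ?_
    rw [← Finset.sum_smul, hR q j a, zero_smul]
  -- the functional defined by `z` vanishes on all rows
  let φ : (Fin m → K) →ₗ[K] K := ∑ i, algebraMap k K (z i) • LinearMap.proj i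
  have hφ : ∀ v, φ v = ∑ i, algebraMap k K (z i) * v i := by
    intro v
    simp [φ, Algebra.smul_def]
  have hvan : Submodule.span K (Set.range X) ≤ LinearMap.ker φ := by
    rw [← hspan, Submodule.span_le]
    rintro _ ⟨q, rfl⟩
    rw [SetLike.mem_coe, LinearMap.mem_ker, hφ]
    have h := hE1 (e q).1 z
    change ∑ i, algebraMap k K (z i) * ((fun b => algebraMap k K ((e q).1 b)) ⬝ᵥ Λ (l i)) = 0
    rw [h]
    refine Finset.sum_eq_zero fun ij _ => ?_
    rw [hT1 q ij.2]
    simp
  have hT2 : ∀ μ : Fin n → k, Eigen k M F μ → ∀ j, T μ z j = 0 := by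
    intro μ hμ j
    have h1 : φ (X ⟨μ, hμ⟩) = 0 :=
      hvan (Submodule.subset_span (Set.mem_range_self _))
    rw [hφ] at h1
    have h2 := hE1 μ z
    change ∑ i, algebraMap k K (z i) * ((fun b => algebraMap k K (μ b)) ⬝ᵥ Λ (l i)) = 0 at h1
    rw [h1] at h2
    have h3 := Fintype.linearIndependent_iff.1 (hind s _ hPD) (fun ij => T μ z ij.2 ij.1) h2.symm
    funext a
    exact h3 (a, j)
  have hT3 : ∀ (μ : Fin n → k) (j : Fin s), T μ z j = 0 := by
    intro μ j
    have hmem : μ ∈ Submodule.span k {μ : Fin n → k | Eigen k M F μ} := by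
      rw [span_eigen hn M F hF]
      trivial
    refine Submodule.span_induction (p := fun μ _ => T μ z j = 0) ?_ ?_ ?_ ?_ hmem
    · intro ν hν
      exact hT2 ν hν j
    · simp [T]
    · intro a b _ _ ha hb
      simp only [T, Matrix.add_vecMul, smul_add, Finset.sum_add_distrib] at ha hb ⊢
      rw [ha, hb, add_zero]
    · intro r a _ ha
      simp only [T, Matrix.smul_vecMul] at ha ⊢
      simp only [smul_comm _ r, ← Finset.smul_sum, ha, smul_zero]
  -- contradiction
  let w : Fin m → Fin s × Fin n × Fin n → ℚ := fun i t => M (c i t.1) t.2.1 t.2.2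
  have hw : LinearIndependent ℚ w := by
    rw [Fintype.linearIndependent_iff]
    intro q hq
    have h1 : ∀ j, ∑ i, q i • c i j = 0 := by
      intro j
      apply hMinj
      rw [map_sum, map_zero]
      ext a b
      have h := congrFun hq (j, a, b)
      simp only [Finset.sum_apply, Pi.smul_apply, smul_eq_mul, Pi.zero_apply, w] at h
      rw [Matrix.sum_apply, Matrix.zero_apply, ← h]
      refine Finset.sum_congr rfl fun i _ => ?_
      have h2 : M (q i • c i j) = q i • M (c i j) := map_rat_smul M (q i) (c i j)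
      rw [h2]
      rfl
    refine Fintype.linearIndependent_iff.1 hl q ?_
    have h3 : ∀ i, q i • l i = ∑ j, (q i • c i j) • (P j : V) := by
      intro i
      rw [hlc i, Finset.smul_sum]
      exact Finset.sum_congr rfl fun j _ => (smul_assoc _ _ _).symm
    simp only [h3]
    rw [Finset.sum_comm]
    refine Finset.sum_eq_zero fun j _ => ?_
    rw [← Finset.sum_smul, h1 j, zero_smul]
  refine hz0 (eq_zero_of_combination w hw z ?_)
  rintro ⟨j, a, b⟩
  have h := congrFun (hT3 (Pi.single a 1) j) b
  simp only [T, Finset.sum_apply, Pi.smul_apply, Matrix.single_one_vecMul, smul_eq_mul,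
    Pi.zero_apply] at h
  rw [← h]
  refine Finset.sum_congr rfl fun i _ => ?_
  simp [w, ovf]

end Linear

end Pool.Agent.E8helper40.PC
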