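import Pool.Agent.E8helper40.PC.Defs
import Pool.Agent.E8helper40.PC.Linear

/-!
# The rank of the p-adic closure of a subgroup of a simple abelian variety
-/

set_option autoImplicit false

open TensorProduct Module Matrix

namespace Pool.Agent.E8helper40.PC

variable {p : ℕ} [Fact p.Prime] {n : ℕ}

lemma extend_tmul {P : Type} [AddCommGroup P] (f : P →+ (Fin n → ℚ_[p])) (q : ℚ) (x : P) :
    extend f (q ⊗ₜ x) = q • f x :=
  LinearMap.liftBaseChange_tmul ..

/-- Extension of scalars does not increase the dimension of a span. -/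
lemma finrank_span_map_le {k K : Type*} [Field k] [Field K] [Algebra k K] {ι : Type*}
    (v : ι → Fin n → k) :
    finrank K (Submodule.span K (Set.range fun i => fun b => algebraMap k K (v i b)))
      ≤ finrank k (Submodule.span k (Set.range v)) := by
  set W := Submodule.span k (Set.range v)
  let b := Module.finBasis k W
  let w : Fin (finrank k W) → Fin n → K := fun j a => algebraMap k K ((b j : Fin n → k) a)
  have hle : Submodule.span K (Set.range fun i => fun a => algebraMap k K (v i a))
      ≤ Submodule.span K (Set.range w) := by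
    rw [Submodule.span_le]
    rintro _ ⟨i, rfl⟩
    have hv : v i ∈ W := Submodule.subset_span (Set.mem_range_self i)
    have h1 : v i = ∑ j, b.repr ⟨v i, hv⟩ j • (b j : Fin n → k) := by
      have h := congrArg (fun w : W => (w : Fin n → k)) (b.sum_repr ⟨v i, hv⟩)
      simp only [Submodule.coe_sum, Submodule.coe_smul] at h
      exact h.symm
    have h2 : (fun a => algebraMap k K (v i a))
        = ∑ j, algebraMap k K (b.repr ⟨v i, hv⟩ j) • w j := by
      funext a
      have h3 := congrFun h1 a
      simp only [Finset.sum_apply, Pi.smul_apply, smul_eq_mul] at h3 ⊢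
      rw [h3, map_sum]
      exact Finset.sum_congr rfl fun j _ => map_mul _ _ _
    change (fun a => algebraMap k K (v i a)) ∈ Submodule.span K (Set.range w)
    rw [h2]
    exact Submodule.sum_mem _ fun j _ => Submodule.smul_mem _ _
      (Submodule.subset_span (Set.mem_range_self j))
  calc _ ≤ finrank K (Submodule.span K (Set.range w)) := Submodule.finrank_mono hle
    _ ≤ Fintype.card (Fin (finrank k W)) := finrank_range_le_card w
    _ = _ := Fintype.card_fin _

variable (A : SimpleAbelianVariety p n)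

/-- The span of the logarithms of the elements of `L`. -/
noncomputable def logSpan (L : AddSubgroup A.Pts) : Submodule ℚ_[p] (Fin n → ℚ_[p]) :=
  Submodule.span ℚ_[p] ((A.log.comp A.incl) '' L)

/-- The `ℤ_p`-rank of the closure is the dimension of the span of the logarithms. -/
lemma rank_closure (L : AddSubgroup A.Pts) {d : ℕ} (h : HasZpRank p (closure A L) d) :
    d = finrank ℚ_[p] (logSpan A L) := by
  rw [← rank_eq A.log A.log_continuous A.log_torsion (closure A L) h]
  have hle : Submodule.span ℚ_[p] (A.log '' (closure A L : Set A.Loc)) = logSpan A L := by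
    apply le_antisymm
    · rw [Submodule.span_le]
      rintro _ ⟨x, hx, rfl⟩
      have hcl : IsClosed (logSpan A L : Set (Fin n → ℚ_[p])) :=
        Submodule.closed_of_finiteDimensional _
      have hsub : (L.map A.incl : Set A.Loc) ⊆ A.log ⁻¹' (logSpan A L) := by
        rintro _ ⟨y, hy, rfl⟩
        exact Submodule.subset_span ⟨y, hy, rfl⟩
      exact closure_minimal hsub (hcl.preimage A.log_continuous) hx
    · rw [logSpan, Submodule.span_le]
      rintro _ ⟨y, hy, rfl⟩
      refine Submodule.subset_span ⟨A.incl y, ?_, rfl⟩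
      exact AddSubgroup.le_topologicalClosure _ (AddSubgroup.mem_map_of_mem A.incl hy)
  rw [hle]

lemma exists_family (L : AddSubgroup A.Pts) (hL : L.FG) :
    ∃ e : Fin (rank A L) → L, LinearIndependent ℚ (fun i => (1 : ℚ) ⊗ₜ[ℤ] ((e i : L) : A.Pts)) ∧
      ∀ x ∈ L, (1 : ℚ) ⊗ₜ[ℤ] x ∈
        Submodule.span ℚ (Set.range fun i => (1 : ℚ) ⊗ₜ[ℤ] ((e i : L) : A.Pts)) := by
  have hfin : Module.Finite ℤ L := Module.Finite.iff_addGroup_fg.2
    ((AddGroup.fg_iff_addSubgroup_fg L).2 hL)
  obtain ⟨κ, e, he, hspan, hli⟩ := exists_linearIndependent' ℚ (fun x : L => (1 : ℚ) ⊗ₜ[ℤ] x)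
  have htop : Submodule.span ℚ (Set.range fun x : L => (1 : ℚ) ⊗ₜ[ℤ] x) = ⊤ := by
    rw [eq_top_iff]
    intro z _
    induction z using TensorProduct.induction_on with
    | zero => exact Submodule.zero_mem _
    | tmul q x =>
      have : q ⊗ₜ[ℤ] x = q • ((1 : ℚ) ⊗ₜ[ℤ] x) := by
        rw [TensorProduct.smul_tmul', smul_eq_mul, mul_one]
      rw [this]
      exact Submodule.smul_mem _ _ (Submodule.subset_span ⟨x, rfl⟩)
    | add a b ha hb => exact Submodule.add_mem _ (ha trivial) (hb trivial)
  have hκ : Finite κ := hli.finite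
  have : Fintype κ := Fintype.ofFinite κ
  have hcard : Fintype.card κ = rank A L := by
    rw [← finrank_span_eq_card hli, hspan, htop, finrank_top]
    rfl
  let g : Fin (rank A L) ≃ κ := (finCongr hcard.symm).trans (Fintype.equivFin κ).symm
  let j : ℚ ⊗[ℤ] L →ₗ[ℚ] ℚ ⊗[ℤ] A.Pts :=
    LinearMap.baseChange ℚ L.subtype.toIntLinearMap
  have hj : Function.Injective j :=
    Module.Flat.lTensor_preserves_injective_linearMap (M := ℚ) L.subtype.toIntLinearMap
      Subtype.val_injective
  refine ⟨fun i => e (g i), ?_, ?_⟩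
  · have h1 : LinearIndependent ℚ ((fun x : L => (1 : ℚ) ⊗ₜ[ℤ] x) ∘ e ∘ g) :=
      hli.comp g g.injective
    exact h1.map' j (LinearMap.ker_eq_bot.2 hj)
  · intro x hx
    have h2 : (1 : ℚ) ⊗ₜ[ℤ] (⟨x, hx⟩ : L) ∈
        Submodule.span ℚ (Set.range ((fun x : L => (1 : ℚ) ⊗ₜ[ℤ] x) ∘ e)) := by
      rw [hspan, htop]
      trivial
    have h3 := Submodule.mem_map_of_mem (f := j) h2
    rw [Submodule.map_span] at h3
    refine Submodule.span_mono ?_ h3
    rintro _ ⟨_, ⟨a, rfl⟩, rfl⟩
    refine ⟨g.symm a, ?_⟩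
    simp [j]

/-- The main theorem: `rank L ≤ r dim_F (End⁰(A) L)`, `r` the `ℤ_p`-rank of the closure. -/
theorem main (F : Subfield A.End) (hF : ∀ x ∈ F, ∀ y ∈ F, x * y = y * x)
    (L : AddSubgroup A.Pts) (hL : L.FG) :
    ∃ r, HasZpRank p (closure A L) r ∧ (∀ r', HasZpRank p (closure A L) r' → r' = r) ∧
      r ≤ rank A L ∧ rank A L ≤ r * finrank F (endSpan A L) := by
  obtain ⟨r, hr⟩ := exists_rank (p := p) A.core A.core_open A.coreEquiv (closure A L)
    (AddSubgroup.isClosed_topologicalClosure _)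
  have hr1 := rank_closure A L hr
  refine ⟨r, hr, fun r' hr' => by rw [rank_closure A L hr', hr1], ?_⟩
  obtain ⟨e, hli, hspan⟩ := exists_family A L hL
  set ℓ := extend (A.log.comp A.incl) with hℓ
  have hℓ1 : ∀ x : A.Pts, ℓ ((1 : ℚ) ⊗ₜ x) = A.log (A.incl x) := by
    intro x
    rw [hℓ, extend_tmul, one_smul]
    rfl
  have hlog : logSpan A L
      = Submodule.span ℚ_[p] (Set.range fun i => ℓ ((1 : ℚ) ⊗ₜ ((e i : L) : A.Pts))) := by
    apply le_antisymm
    · rw [logSpan, Submodule.span_le]
      rintro _ ⟨x, hx, rfl⟩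
      have h1 := Submodule.mem_map_of_mem (f := ℓ) (hspan x hx)
      rw [hℓ1, Submodule.map_span, ← Set.range_comp] at h1
      exact Submodule.span_le_restrictScalars ℚ ℚ_[p] _ h1
    · rw [Submodule.span_le]
      rintro _ ⟨i, rfl⟩
      exact Submodule.subset_span ⟨_, (e i).2, (hℓ1 _).symm⟩
  constructor
  · rw [hr1, hlog]
    exact (finrank_range_le_card _).trans (Fintype.card_fin _).le
  · let Λ : ℚ ⊗[ℤ] A.Pts →+ (Fin n → AlgebraicClosure ℚ_[p]) :=
      { toFun := fun v b => algebraMap ℚ_[p] (AlgebraicClosure ℚ_[p]) (ℓ v b)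
        map_zero' := by
          funext b
          simp
        map_add' := by
          intro v w
          funext b
          simp }
    have hacl : IsAlgClosed (Qbar p) :=
      (algebraicClosure.isAlgClosure ℚ (AlgebraicClosure ℚ_[p])).isAlgClosed
    have hΛ : ∀ (δ : A.End) (v : ℚ ⊗[ℤ] A.Pts),
        Λ (δ • v) = (ovf (AlgebraicClosure ℚ_[p]) (A.lie δ)) *ᵥ Λ v := by
      intro δ v
      funext b
      have h := congrFun (A.log_smul δ v) b
      change algebraMap ℚ_[p] (AlgebraicClosure ℚ_[p]) (ℓ (δ • v) b) = _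
      rw [hℓ, h]
      simp only [Matrix.mulVec, dotProduct, Matrix.map_apply, map_sum, map_mul, ovf]
      refine Finset.sum_congr rfl fun a _ => ?_
      congr 1
    have hmain := card_le (k := Qbar p) A.pos A.lie F hF Λ hΛ A.independent
      (fun i => (1 : ℚ) ⊗ₜ[ℤ] ((e i : L) : A.Pts)) hli
    refine hmain.trans (Nat.mul_le_mul ?_ ?_)
    · rw [hr1, hlog]
      exact finrank_span_map_le (K := AlgebraicClosure ℚ_[p])
        (fun i => ℓ ((1 : ℚ) ⊗ₜ ((e i : L) : A.Pts)))
    · have heq : Submodule.span A.End (Set.range fun i => (1 : ℚ) ⊗ₜ[ℤ] ((e i : L) : A.Pts))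
          = endSpan A L := by
        apply le_antisymm
        · rw [Submodule.span_le]
          rintro _ ⟨i, rfl⟩
          exact Submodule.subset_span ⟨_, (e i).2, rfl⟩
        · rw [endSpan, Submodule.span_le]
          rintro _ ⟨x, hx, rfl⟩
          exact Submodule.span_le_restrictScalars ℚ A.End _ (hspan x hx)
      rw [heq]

end Pool.Agent.E8helper40.PC
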