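import Mathlib

/-!
# Closed subgroups of `ℤ_p ^ n` and continuous homomorphisms to `ℚ_p ^ n`
-/

set_option autoImplicit false

namespace Pool.Agent.E8helper40.PC

open Module

/-- The topological group `H` (a subgroup of `G`) has `ℤ_p`-rank `d`: it has an open subgroup of
finite index which is isomorphic, as a topological group, to `ℤ_p ^ d`. -/
def HasZpRank (p : ℕ) [Fact p.Prime] {G : Type*} [AddCommGroup G] [TopologicalSpace G]
    (H : AddSubgroup G) (d : ℕ) : Prop :=
  ∃ U : AddSubgroup H, IsOpen (U : Set H) ∧ U.FiniteIndex ∧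
    Nonempty ((Fin d → ℤ_[p]) ≃ₜ+ U)

variable {p : ℕ} [Fact p.Prime]

lemma dense_nat (S : Set ℤ_[p]) (hS : IsClosed S) (h : ∀ m : ℕ, (m : ℤ_[p]) ∈ S) (x : ℤ_[p]) :
    x ∈ S := by
  have h1 := PadicInt.denseRange_natCast (p := p)
  have h2 : closure (Set.range (Nat.cast : ℕ → ℤ_[p])) ⊆ S := by
    apply closure_minimal _ hS
    rintro _ ⟨m, rfl⟩
    exact h m
  exact h2 (h1 x)

instance : ContinuousSMul ℤ_[p] ℚ_[p] where
  continuous_smul := by
    have h : (fun x : ℤ_[p] × ℚ_[p] => x.1 • x.2) = fun x => (x.1 : ℚ_[p]) * x.2 := by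
      funext x
      rw [Algebra.smul_def]
      rfl
    rw [h]
    exact (continuous_subtype_val.comp continuous_fst).mul continuous_snd

/-- A continuous homomorphism between modules is linear over `ℤ_p`. -/
lemma map_zp_smul {A B : Type*} [AddCommGroup A] [TopologicalSpace A] [Module ℤ_[p] A]
    [ContinuousSMul ℤ_[p] A] [AddCommGroup B] [TopologicalSpace B] [T2Space B] [Module ℤ_[p] B]
    [ContinuousSMul ℤ_[p] B] (f : A →+ B) (hf : Continuous f) (c : ℤ_[p]) (x : A) :
    f (c • x) = c • f x := by
  refine dense_nat {c : ℤ_[p] | f (c • x) = c • f x} ?_ ?_ c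
  · exact isClosed_eq (hf.comp (continuous_id.smul continuous_const))
      (continuous_id.smul continuous_const)
  · intro m
    simp [Nat.cast_smul_eq_nsmul]

/-- A closed subgroup of a topological module is a submodule. -/
def closedSubmodule {A : Type*} [AddCommGroup A] [TopologicalSpace A] [Module ℤ_[p] A]
    [ContinuousSMul ℤ_[p] A] (N : AddSubgroup A) (hN : IsClosed (N : Set A)) :
    Submodule ℤ_[p] A where
  carrier := N
  add_mem' := N.add_mem
  zero_mem' := N.zero_mem
  smul_mem' c x hx := by
    refine dense_nat {c : ℤ_[p] | c • x ∈ (N : Set A)} ?_ ?_ c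
    · exact hN.preimage (continuous_id.smul continuous_const)
    · intro m
      simpa [Nat.cast_smul_eq_nsmul] using N.nsmul_mem hx m

/-- A closed subgroup of `ℤ_p ^ n` is isomorphic to `ℤ_p ^ d` for some `d`. -/
lemma exists_equiv {n : ℕ} (N : AddSubgroup (Fin n → ℤ_[p])) (hN : IsClosed (N : Set (Fin n → ℤ_[p]))) :
    ∃ d : ℕ, Nonempty ((Fin d → ℤ_[p]) ≃ₜ+ N) := by
  let S := closedSubmodule (p := p) N hN
  obtain ⟨d, b⟩ := Submodule.basisOfPid (Pi.basisFun ℤ_[p] (Fin n)) S
  refine ⟨d, ⟨?_⟩⟩
  let e : (Fin d → ℤ_[p]) ≃ₗ[ℤ_[p]] S := b.equivFun.symm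
  let e' : (Fin d → ℤ_[p]) ≃+ N := e.toAddEquiv
  have hcont : Continuous e' := by
    refine Continuous.subtype_mk (f := fun x => (e x : Fin n → ℤ_[p])) ?_ _
    have h : (fun x : Fin d → ℤ_[p] => (e x : Fin n → ℤ_[p]))
        = fun x => ∑ i, x i • ((b i : S) : Fin n → ℤ_[p]) := by
      funext x
      simp [e, Basis.equivFun_symm_apply]
    rw [h]
    exact continuous_finsetSum _ fun i _ => (continuous_apply i).smul continuous_const
  have hhomeo : Continuous e'.symm := by
    have := (Continuous.homeoOfEquivCompactToT2 (f := e'.toEquiv) hcont).continuous_symm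
    exact this
  exact { e' with continuous_toFun := hcont, continuous_invFun := hhomeo }

/-- The `ℚ_p`-span of the image of an injective continuous homomorphism `ℤ_p ^ d → ℚ_p ^ n` has
dimension `d`. -/
lemma finrank_span_range {n d : ℕ} (f : (Fin d → ℤ_[p]) →+ (Fin n → ℚ_[p])) (hf : Continuous f)
    (hinj : Function.Injective f) :
    finrank ℚ_[p] (Submodule.span ℚ_[p] (Set.range f)) = d := by
  let g : (Fin d → ℤ_[p]) →ₗ[ℤ_[p]] (Fin n → ℚ_[p]) :=
    { f with map_smul' := fun c x => map_zp_smul f hf c x }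
  have hli : LinearIndependent ℤ_[p] fun i => g (Pi.single i 1) :=
    (Pi.basisFun ℤ_[p] (Fin d)).linearIndependent.map' g (LinearMap.ker_eq_bot.2 hinj)
      |> fun h => by simpa [Function.comp_def] using h
  have hli' : LinearIndependent ℚ_[p] fun i => g (Pi.single i 1) :=
    (LinearIndependent.iff_fractionRing ℤ_[p] ℚ_[p]).1 hli
  have hspan : Submodule.span ℚ_[p] (Set.range f)
      = Submodule.span ℚ_[p] (Set.range fun i => g (Pi.single i 1)) := by
    apply le_antisymm
    · rw [Submodule.span_le]
      rintro _ ⟨x, rfl⟩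
      have hx : f x = ∑ i, (x i : ℚ_[p]) • g (Pi.single i 1) := by
        change g x = _
        conv_lhs => rw [pi_eq_sum_univ' x]
        rw [map_sum]
        refine Finset.sum_congr rfl fun i _ => ?_
        rw [map_smul]
        rfl
      rw [hx]
      exact Submodule.sum_mem _ fun i _ => Submodule.smul_mem _ _
        (Submodule.subset_span (Set.mem_range_self i))
    · rw [Submodule.span_le]
      rintro _ ⟨i, rfl⟩
      exact Submodule.subset_span (Set.mem_range_self _)
  rw [hspan, finrank_span_eq_card hli', Fintype.card_fin]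

section Group

variable {n : ℕ} {G : Type*} [AddCommGroup G] [TopologicalSpace G]

/-- The `ℤ_p`-rank of a subgroup is the dimension of the span of its logarithms. -/
lemma rank_eq (log : G →+ (Fin n → ℚ_[p])) (hlog : Continuous log)
    (htor : ∀ x, log x = 0 → ∃ N : ℕ, 0 < N ∧ N • x = 0) (H : AddSubgroup G) {d : ℕ}
    (h : HasZpRank p H d) : finrank ℚ_[p] (Submodule.span ℚ_[p] (log '' H)) = d := by
  obtain ⟨U, -, hU, ⟨e⟩⟩ := h
  let f : (Fin d → ℤ_[p]) →+ (Fin n → ℚ_[p]) :=
    log.comp (H.subtype.comp (U.subtype.comp (e : (Fin d → ℤ_[p]) ≃+ U).toAddMonoidHom))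
  have hf : Continuous f :=
    hlog.comp (continuous_subtype_val.comp (continuous_subtype_val.comp e.continuous_toFun))
  have hinj : Function.Injective f := by
    rw [injective_iff_map_eq_zero]
    intro z hz
    obtain ⟨N, hN, hN0⟩ := htor _ hz
    have h1 : ((N • (e z) : U) : H) = 0 := by
      apply Subtype.ext
      exact hN0
    have h2 : e (N • z) = 0 := by
      rw [map_nsmul]
      exact Subtype.ext h1
    have h3 : N • z = 0 := by
      have := congrArg e.symm h2
      simpa using this
    exact (smul_eq_zero.1 h3).resolve_left hN.ne'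
  have hspan : Submodule.span ℚ_[p] (log '' H) = Submodule.span ℚ_[p] (Set.range f) := by
    apply le_antisymm
    · rw [Submodule.span_le]
      rintro _ ⟨x, hx, rfl⟩
      have hidx : U.index ≠ 0 := hU.index_ne_zero
      have hmem : U.index • (⟨x, hx⟩ : H) ∈ U := U.nsmul_index_mem _
      have h1 : log x = (U.index : ℚ_[p])⁻¹ • log (U.index • x) := by
        rw [map_nsmul, ← Nat.cast_smul_eq_nsmul ℚ_[p], smul_smul, inv_mul_cancel₀, one_smul]
        exact_mod_cast hidx
      rw [h1]
      refine Submodule.smul_mem _ _ (Submodule.subset_span ⟨e.symm ⟨_, hmem⟩, ?_⟩)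
      change log ((e (e.symm ⟨_, hmem⟩) : U) : H) = _
      rw [show e (e.symm ⟨_, hmem⟩) = ⟨_, hmem⟩ from e.apply_symm_apply _]
      rfl
    · rw [Submodule.span_le]
      rintro _ ⟨z, rfl⟩
      exact Submodule.subset_span ⟨_, ((e z : U) : H).2, rfl⟩
  rw [hspan]
  exact finrank_span_range f hf hinj

variable [IsTopologicalAddGroup G] [CompactSpace G] [T2Space G]

/-- A closed subgroup of a compact group with an open subgroup isomorphic to `ℤ_p ^ n` has a
`ℤ_p`-rank. -/
lemma exists_rank (core : AddSubgroup G) (hcore : IsOpen (core : Set G))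
    (e : (Fin n → ℤ_[p]) ≃ₜ+ core) (H : AddSubgroup G) (hH : IsClosed (H : Set G)) :
    ∃ d, HasZpRank p H d := by
  let ι : (Fin n → ℤ_[p]) →+ G := core.subtype.comp (e : (Fin n → ℤ_[p]) ≃+ core).toAddMonoidHom
  have hι : Continuous ι := continuous_subtype_val.comp e.continuous_toFun
  let N : AddSubgroup (Fin n → ℤ_[p]) := H.comap ι
  have hN : IsClosed (N : Set (Fin n → ℤ_[p])) := hH.preimage hι
  obtain ⟨d, ⟨g⟩⟩ := exists_equiv N hN
  let U : AddSubgroup H := core.comap H.subtype
  have hUopen : IsOpen (U : Set H) := hcore.preimage continuous_subtype_val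
  have hcoreidx : core.FiniteIndex := by
    have : Finite (G ⧸ core) := AddSubgroup.quotient_finite_of_isOpen core hcore
    exact AddSubgroup.finiteIndex_of_finite_quotient
  have hUidx : U.FiniteIndex := inferInstanceAs (core.addSubgroupOf H).FiniteIndex
  let φ : (Fin d → ℤ_[p]) →+ U :=
    { toFun := fun z => ⟨⟨ι (g z), (g z).2⟩, (e (g z)).2⟩
      map_zero' := by
        apply Subtype.ext
        apply Subtype.ext
        simp
      map_add' := by
        intro a b
        apply Subtype.ext
        apply Subtype.ext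
        simp }
  have hφ : Continuous φ := by
    refine Continuous.subtype_mk (Continuous.subtype_mk ?_ _) _
    exact hι.comp (continuous_subtype_val.comp g.continuous_toFun)
  have hbij : Function.Bijective φ := by
    constructor
    · intro a b hab
      have h1 : ι (g a) = ι (g b) := congrArg (fun u : U => ((u : H) : G)) hab
      have h2 : e (g a : Fin n → ℤ_[p]) = e (g b) := Subtype.ext h1
      exact g.injective (Subtype.ext (e.injective h2))
    · rintro ⟨⟨x, hx⟩, hxU⟩
      have hxc : x ∈ core := hxU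
      have h1 : ι (e.symm ⟨x, hxc⟩) = x := by
        change ((e (e.symm ⟨x, hxc⟩) : core) : G) = x
        rw [show e (e.symm ⟨x, hxc⟩) = ⟨x, hxc⟩ from e.apply_symm_apply _]
      have h2 : e.symm ⟨x, hxc⟩ ∈ N := by
        change ι _ ∈ H
        rw [h1]
        exact hx
      refine ⟨g.symm ⟨_, h2⟩, ?_⟩
      apply Subtype.ext
      apply Subtype.ext
      change ι (g (g.symm ⟨_, h2⟩)) = x
      rw [show g (g.symm ⟨_, h2⟩) = ⟨_, h2⟩ from g.apply_symm_apply _]
      exact h1
  let E : (Fin d → ℤ_[p]) ≃+ U := AddEquiv.ofBijective φ hbij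
  have hE : Continuous E := hφ
  have hE' : Continuous E.symm :=
    (Continuous.homeoOfEquivCompactToT2 (f := E.toEquiv) hE).continuous_symm
  exact ⟨d, U, hUopen, hUidx, ⟨{ E with continuous_toFun := hE, continuous_invFun := hE' }⟩⟩

end Group

end Pool.Agent.E8helper40.PC
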